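import Pool.Agent.H94.EGC.S1

/-!
# EGC, rows EX1 and EX2: compressed sets and the exchange
-/

set_option autoImplicit false

namespace Pool.EGC

open Finset

theorem ex24_mo {m : ℕ} {c : Fin m → Bool} {d : ℕ} {x : Fin m → ℕ} :
    x ∈ Mo c d ↔ ∑ i, x i = d ∧ ∀ i, c i = true → x i ≤ 1 := by
  classical
  unfold Mo
  rw [Finset.mem_filter, Finset.mem_piAntidiag]
  constructor
  · rintro ⟨⟨h, _⟩, h2⟩
    exact ⟨h, h2⟩
  · rintro ⟨h, h2⟩
    exact ⟨⟨h, fun i _ => Finset.mem_univ i⟩, h2⟩

theorem ex24_up {m : ℕ} {c : Fin m → Bool} {d : ℕ} {A : Finset (Fin m → ℕ)}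
    {y : Fin m → ℕ} :
    y ∈ up c d A ↔ y ∈ Mo c (d + 1) ∧ ∃ x ∈ A, ∃ i, y = x + Pi.single i 1 := by
  classical
  unfold up
  rw [Finset.mem_filter]

/-- The sum after adding a unit. -/
theorem ex24_sum {m : ℕ} (x : Fin m → ℕ) (i : Fin m) :
    ∑ j, (x + Pi.single i 1 : Fin m → ℕ) j = ∑ j, x j + 1 := by
  simp only [Pi.add_apply, Finset.sum_add_distrib, Finset.sum_pi_single', Finset.mem_univ,
    if_true]

theorem ex24_irr {m : ℕ} (x : Fin m → ℕ) : ¬ lx x x := by
  rintro ⟨i, _, h⟩
  exact lt_irrefl _ h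

theorem ex24_tr {m : ℕ} {x y z : Fin m → ℕ} (h1 : lx x y) (h2 : lx y z) : lx x z := by
  obtain ⟨i, hi, hi2⟩ := h1
  obtain ⟨j, hj, hj2⟩ := h2
  rcases lt_trichotomy i j with h | h | h
  · exact ⟨i, fun k hk => (hi k hk).trans (hj k (hk.trans h)), by rw [← hj i h]; exact hi2⟩
  · subst h
    exact ⟨i, fun k hk => (hi k hk).trans (hj k hk), hi2.trans hj2⟩
  · exact ⟨j, fun k hk => (hi k (hk.trans h)).trans (hj k hk), by rw [hi j h]; exact hj2⟩

theorem ex24_add {m : ℕ} {x y : Fin m → ℕ} (z : Fin m → ℕ) (h : lx x y) :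
    lx (x + z) (y + z) := by
  obtain ⟨i, hi, hi2⟩ := h
  exact ⟨i, fun k hk => by simp only [Pi.add_apply, hi k hk], by
    simp only [Pi.add_apply]; omega⟩

theorem ex24_unit {m : ℕ} (x : Fin m → ℕ) {i j : Fin m} (h : i < j) :
    lx (x + Pi.single j 1) (x + Pi.single i 1) := by
  refine ⟨i, fun k hk => ?_, ?_⟩
  · have h1 : k ≠ j := (hk.trans h).ne
    have h2 : k ≠ i := hk.ne
    simp [Pi.add_apply, h1, h2]
  · have h1 : i ≠ j := h.ne
    simp [Pi.add_apply, h1]

theorem ex1 : EX1Stmt := by
  intro m c hc d A hA hcm b hb hbA a ha hab hb0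
  obtain ⟨hbs, hbc⟩ := ex24_mo.1 hb
  obtain ⟨has, hac⟩ := ex24_mo.1 (hA ha)
  -- no common coordinate
  have hne : ∀ i, a i ≠ b i := fun i hi => hbA (hcm i a ha b hb hi hab)
  have h0 : a 0 < b 0 := by
    obtain ⟨i, hi, hi2⟩ := hab
    rcases eq_or_ne i 0 with h | h
    · rw [h] at hi2; exact hi2
    · exact absurd (hi 0 (Fin.pos_iff_ne_zero.2 h)) (hne 0)
  have hlast : 1 ≤ a (Fin.last (m + 2)) := by
    have := hne (Fin.last (m + 2))
    omega
  -- the last but one place
  obtain ⟨p, hp⟩ : ∃ p : Fin (m + 3), (p : ℕ) = m + 1 := ⟨⟨m + 1, by omega⟩, rfl⟩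
  have hpl : p ≠ Fin.last (m + 2) := by
    intro h
    have := congrArg Fin.val h
    rw [hp, Fin.val_last] at this
    omega
  have hp0 : p ≠ 0 := by
    intro h
    have := congrArg Fin.val h
    rw [hp, Fin.val_zero] at this
    omega
  have hl0 : Fin.last (m + 2) ≠ 0 := by
    intro h
    have := congrArg Fin.val h
    rw [Fin.val_last, Fin.val_zero] at this
    omega
  by_cases hcp : c p = true
  · -- all places but the last one are capped
    have hcap : ∀ i : Fin (m + 3), i ≠ Fin.last (m + 2) → c i = true := by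
      intro i hi
      refine hc i p ?_ hcp
      rw [Fin.le_def, hp]
      have h1 := i.isLt
      have h2 : (i : ℕ) ≠ m + 2 := fun h => hi (Fin.ext (by rw [Fin.val_last]; exact h))
      omega
    have hab1 : ∀ i : Fin (m + 3), i ≠ Fin.last (m + 2) → a i + b i = 1 := by
      intro i hi
      have h1 := hac i (hcap i hi)
      have h2 := hbc i (hcap i hi)
      have h3 := hne i
      omega
    by_cases hj : ∃ j : Fin (m + 3), j ≠ 0 ∧ j ≠ Fin.last (m + 2) ∧ b j = 1
    · obtain ⟨j, hj0, hjl, hbj⟩ := hj
      set x : Fin (m + 3) → ℕ := fun i => if i = j then 0 else if i = Fin.last (m + 2) then 1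
        else b i with hx
      have hxj : x j = 0 := by simp [hx]
      have hxl : x (Fin.last (m + 2)) = 1 := by simp [hx, Ne.symm hjl]
      have hxo : ∀ i, i ≠ j → i ≠ Fin.last (m + 2) → x i = b i := by
        intro i h1 h2
        simp [hx, h1, h2]
      have hx0 : x 0 = b 0 := hxo 0 (Ne.symm hj0) (Ne.symm hl0)
      have hsum : x + Pi.single j 1 = b + Pi.single (Fin.last (m + 2)) 1 := by
        funext i
        by_cases h1 : i = j
        · subst h1
          simp [hxj, hbj, hjl]
        · by_cases h2 : i = Fin.last (m + 2)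
          · subst h2
            simp [hxl, hb0, h1]
          · simp [hxo i h1 h2, h1, h2]
      have hxM : x ∈ Mo c d := by
        refine ex24_mo.2 ⟨?_, fun i hi => ?_⟩
        · have h1 := ex24_sum x j
          rw [hsum, ex24_sum, hbs] at h1
          omega
        · by_cases h1 : i = j
          · rw [h1, hxj]; omega
          · by_cases h2 : i = Fin.last (m + 2)
            · rw [h2, hxl]
            · rw [hxo i h1 h2]; exact hbc i hi
      have hax : lx a x := ⟨0, fun k hk => absurd hk (Fin.not_lt_zero k), by rw [hx0]; exact h0⟩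
      have haj : a j = x j := by
        have := hab1 j hjl
        rw [hxj]; omega
      have hxA : x ∈ A := hcm j a ha x hxM haj hax
      have hxb : lx x b := by
        refine ⟨j, fun k hk => hxo k hk.ne ?_, by rw [hxj, hbj]; omega⟩
        intro h
        rw [h] at hk
        exact absurd hk (not_lt.2 (Fin.le_last j))
      exact hbA (hcm 0 x hxA b hb hx0 hxb)
    · -- `b` is the first unit vector
      have hb1 : ∀ j : Fin (m + 3), j ≠ 0 → j ≠ Fin.last (m + 2) → b j = 0 := by
        intro j h1 h2
        by_contra h3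
        have := hbc j (hcap j h2)
        exact hj ⟨j, h1, h2, by omega⟩
      have hbj : ∀ j : Fin (m + 3), j ≠ 0 → b j = 0 := by
        intro j h1
        by_cases h2 : j = Fin.last (m + 2)
        · rw [h2]; exact hb0
        · exact hb1 j h1 h2
      have hd : d = b 0 := by
        rw [← hbs]
        exact Finset.sum_eq_single 0 (fun j _ h => hbj j h) (fun h => absurd (Finset.mem_univ _) h)
      have hd1 : d ≤ 1 := by rw [hd]; exact hbc 0 (hcap 0 (Ne.symm hl0))
      have hap : a p = 1 := by
        have h1 := hab1 p hpl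
        have h2 := hbj p hp0
        omega
      have h2 : a p + a (Fin.last (m + 2)) ≤ ∑ i, a i := by
        rw [← Finset.sum_pair hpl]
        exact Finset.sum_le_sum_of_subset (Finset.subset_univ _)
      omega
  · -- move everything to the last but one place
    set x : Fin (m + 3) → ℕ := fun i => if i = p then a p + a (Fin.last (m + 2)) else
      if i = Fin.last (m + 2) then 0 else a i with hx
    have hxp : x p = a p + a (Fin.last (m + 2)) := by simp [hx]
    have hxl : x (Fin.last (m + 2)) = 0 := by simp [hx, Ne.symm hpl]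
    have hxo : ∀ i, i ≠ p → i ≠ Fin.last (m + 2) → x i = a i := by
      intro i h1 h2
      simp [hx, h1, h2]
    have hx0 : x 0 = a 0 := hxo 0 (Ne.symm hp0) (Ne.symm hl0)
    have hsum : ∑ i, x i = ∑ i, a i := by
      have e1 : x + Pi.single (Fin.last (m + 2)) (a (Fin.last (m + 2))) =
          a + Pi.single p (a (Fin.last (m + 2))) := by
        funext i
        by_cases h1 : i = p
        · subst h1
          simp [hxp, hpl]
        · by_cases h2 : i = Fin.last (m + 2)
          · subst h2
            simp [hxl, h1]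
          · simp [hxo i h1 h2, h1, h2]
      have e2 : ∑ i, (x + Pi.single (Fin.last (m + 2)) (a (Fin.last (m + 2))) :
          Fin (m + 3) → ℕ) i = ∑ i, (a + Pi.single p (a (Fin.last (m + 2))) :
          Fin (m + 3) → ℕ) i := by rw [e1]
      simp only [Pi.add_apply, Finset.sum_add_distrib, Finset.sum_pi_single', Finset.mem_univ,
        if_true] at e2
      omega
    have hxM : x ∈ Mo c d := by
      refine ex24_mo.2 ⟨by rw [hsum]; exact has, fun i hi => ?_⟩
      by_cases h1 : i = p
      · rw [h1] at hi; exact absurd hi hcp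
      · by_cases h2 : i = Fin.last (m + 2)
        · rw [h2, hxl]; omega
        · rw [hxo i h1 h2]; exact hac i hi
    have hax : lx a x := by
      refine ⟨p, fun k hk => (hxo k hk.ne ?_).symm, by rw [hxp]; omega⟩
      intro h
      rw [h] at hk
      exact absurd hk (not_lt.2 (Fin.le_last p))
    have hxA : x ∈ A := hcm 0 a ha x hxM hx0.symm hax
    have hxb : lx x b := ⟨0, fun k hk => absurd hk (Fin.not_lt_zero k), by rw [hx0]; exact h0⟩
    exact hbA (hcm (Fin.last (m + 2)) x hxA b hb (by rw [hxl, hb0]) hxb)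

theorem ex2 : EX2Stmt := by
  classical
  intro m c d A hA b hb hbA hbig a ha hsm hab hbl
  obtain ⟨hbs, hbc⟩ := ex24_mo.1 hb
  obtain ⟨has, hac⟩ := ex24_mo.1 (hA ha)
  have hane : a ≠ b := fun h => hbA (h ▸ ha)
  have hA' : ∀ x ∈ insert b (A.erase a), x ∈ A ∨ x = b := by
    intro x hx
    rcases Finset.mem_insert.1 hx with h | h
    · exact Or.inr h
    · exact Or.inl (Finset.mem_of_mem_erase h)
  have hgt : ∀ x ∈ insert b (A.erase a), lx a x := by
    intro x hx
    rcases Finset.mem_insert.1 hx with h | h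
    · rw [h]; exact hab
    · exact hsm x (Finset.mem_of_mem_erase h) (Finset.ne_of_mem_erase h)
  -- the shadow of `b`
  have hbup : ∀ i, i ≠ Fin.last m → b + Pi.single i 1 ∈ Mo c (d + 1) →
      b + Pi.single i 1 ∈ up c d A := by
    intro i hi hM
    obtain ⟨hM1, hM2⟩ := ex24_mo.1 hM
    have hil : i < Fin.last m := lt_of_le_of_ne (Fin.le_last i) hi
    set z : Fin (m + 1) → ℕ := fun k => (b + Pi.single i 1 : Fin (m + 1) → ℕ) k -
      (Pi.single (Fin.last m) 1 : Fin (m + 1) → ℕ) k with hz
    have hz1 : b + Pi.single i 1 = z + Pi.single (Fin.last m) 1 := by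
      funext k
      by_cases hk : k = Fin.last m
      · subst hk
        simp [hz, Ne.symm hi]
        omega
      · simp [hz, hk]
    have hzM : z ∈ Mo c d := by
      refine ex24_mo.2 ⟨?_, fun k hk => ?_⟩
      · rw [hz1, ex24_sum] at hM1
        omega
      · have h1 := hM2 k hk
        have h2 : z k ≤ (b + Pi.single i 1 : Fin (m + 1) → ℕ) k := Nat.sub_le _ _
        exact h2.trans h1
    have hbz : lx b z := by
      refine ⟨i, fun k hk => ?_, ?_⟩
      · have h1 : k ≠ i := hk.ne
        have h2 : k ≠ Fin.last m := (hk.trans hil).ne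
        simp [hz, h1, h2]
      · simp [hz, hi]
    exact ex24_up.2 ⟨hM, z, hbig z hzM hbz, Fin.last m, hz1⟩
  by_cases hcl : c (Fin.last m) = true
  · refine Finset.card_le_card fun y hy => ?_
    obtain ⟨hyM, x, hx, i, hxi⟩ := ex24_up.1 hy
    rcases hA' x hx with h | h
    · exact ex24_up.2 ⟨hyM, x, h, i, hxi⟩
    · rw [h] at hxi
      by_cases hi : i = Fin.last m
      · exfalso
        have h1 := (ex24_mo.1 hyM).2 (Fin.last m) hcl
        rw [hxi, hi] at h1
        simp only [Pi.add_apply, Pi.single_eq_same] at h1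
        omega
      · rw [hxi]
        exact hbup i hi (hxi ▸ hyM)
  · have haup : a + Pi.single (Fin.last m) 1 ∈ up c d A := by
      refine ex24_up.2 ⟨ex24_mo.2 ⟨by rw [ex24_sum, has], fun k hk => ?_⟩, a, ha, _, rfl⟩
      have hk2 : k ≠ Fin.last m := by
        intro h
        rw [h] at hk
        exact hcl hk
      simp only [Pi.add_apply, Pi.single_apply, hk2, if_false, add_zero]
      exact hac k hk
    have hsub : up c d (insert b (A.erase a)) ⊆
        insert (b + Pi.single (Fin.last m) 1) ((up c d A).erase (a + Pi.single (Fin.last m) 1)) := by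
      intro y hy
      obtain ⟨hyM, x, hx, i, hxi⟩ := ex24_up.1 hy
      have hya : y ≠ a + Pi.single (Fin.last m) 1 := by
        intro h
        rw [h] at hxi
        have h1 : lx (a + Pi.single i 1) (x + Pi.single i 1) := ex24_add _ (hgt x hx)
        rw [← hxi] at h1
        by_cases hi : i = Fin.last m
        · rw [hi] at h1
          exact ex24_irr _ h1
        · exact ex24_irr _ (ex24_tr h1 (ex24_unit a (lt_of_le_of_ne (Fin.le_last i) hi)))
      rcases hA' x hx with h | h
      · exact Finset.mem_insert_of_mem (Finset.mem_erase.2 ⟨hya, ex24_up.2 ⟨hyM, x, h, i, hxi⟩⟩)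
      · rw [h] at hxi
        by_cases hi : i = Fin.last m
        · rw [hxi, hi]; exact Finset.mem_insert_self _ _
        · refine Finset.mem_insert_of_mem (Finset.mem_erase.2 ⟨hya, ?_⟩)
          rw [hxi]
          exact hbup i hi (hxi ▸ hyM)
    calc (up c d (insert b (A.erase a))).card ≤ _ := Finset.card_le_card hsub
      _ ≤ ((up c d A).erase (a + Pi.single (Fin.last m) 1)).card + 1 := Finset.card_insert_le _ _
      _ = (up c d A).card := Finset.card_erase_add_one haup

end Pool.EGC
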